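import Mathlib
import Pool.Agent.R110.JacketDefs

/-!
# Jacket widths over rings with torsion free additive group

Over a ring `R` whose additive group is torsion free (for instance any field of characteristic zero, or
any subring of a matrix ring over it) no jacket matrix of order `2 n`, `n ≥ 3`, has jacket width
`n - 1`.  So property (F) fails for all subgroups `N` of the group of units of `R`.

If all entries outside a central `2 × 2` block are `1` or `-1`, then the `2 n - 2` outer rows cannot all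
agree in the two central columns (a Gram matrix would not be positive semidefinite), and comparing a
central row with the first row and with an outer row that has different signs in the central columns
shows that the central entries `x` satisfy `x = x⁻¹` and `2 x ∈ ℤ`, so `x` is `1` or `-1`.
-/

namespace Pool.Agent.Results.MP_522cd8_co.TorsionFreeRings

open Finset Pool.Agent.R110.Jacket

variable {R : Type} [Ring R]

open Classical in
/-- the integer `1` or `-1` belonging to a unit `1` or `-1` -/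
noncomputable def z (u : Rˣ) : ℤ := if u = 1 then 1 else -1

theorem z_spec {u : Rˣ} (h : u = 1 ∨ u = -1) : ((z u : ℤ) : R) = u := by
  unfold z
  split_ifs with h1
  · rw [h1]; simp
  · rcases h with h | h
    · exact absurd h h1
    · rw [h]; simp

theorem z_sq (u : Rˣ) : z u * z u = 1 := by
  unfold z; split_ifs <;> norm_num

theorem z_one : z (1 : Rˣ) = 1 := by
  unfold z; rw [if_pos rfl]

theorem inv_pm {u : Rˣ} (h : u = 1 ∨ u = -1) : u⁻¹ = u := by
  rcases h with h | h <;> rw [h] <;> simp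

variable [IsAddTorsionFree R] [Nontrivial R]

theorem int_inj {a : ℤ} (h : (a : R) = 0) : a = 0 := by
  by_contra hne
  have h1 : a • (1 : R) = 0 := by simpa using h
  rcases (smul_eq_zero (M := R)).1 h1 with h2 | h2
  · exact hne h2
  · exact one_ne_zero h2

omit [Nontrivial R] in
theorem two_inj {a : R} (h : 2 * a = 0) : a = 0 := by
  have h1 : (2 : ℤ) • a = 0 := by
    rw [zsmul_eq_mul]
    simpa using h
  rcases (smul_eq_zero (M := R)).1 h1 with h2 | h2
  · norm_num at h2
  · exact h2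

variable {n : ℕ} {M : Fin (2 * n) → Fin (2 * n) → Rˣ}

/-- the outer indices -/
def Out (n : ℕ) : Finset (Fin (2 * n)) :=
  univ.filter (fun i : Fin (2 * n) => (i : ℕ) < n - 1 ∨ 2 * n ≤ (i : ℕ) + (n - 1))

theorem card_Out (hn : 3 ≤ n) : (Out n).card = 2 * (n - 1) := card_outer (n - 1) (by omega)

/-- the two central indices -/
def ce (n : ℕ) (hn : 3 ≤ n) : Fin (2 * n) := ⟨n - 1, by omega⟩
/-- the two central indices -/
def de (n : ℕ) (hn : 3 ≤ n) : Fin (2 * n) := ⟨n, by omega⟩

theorem sum_split {A : Type} [AddCommMonoid A] (hn : 3 ≤ n) (f : Fin (2 * n) → A) :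
    ∑ j, f j = ∑ j ∈ Out n, f j + (f (ce n hn) + f (de n hn)) := by
  have h : (univ : Finset (Fin (2 * n))) = Out n ∪ {ce n hn, de n hn} := by
    ext j
    simp only [mem_univ, Out, mem_union, mem_filter, true_and, mem_insert, mem_singleton, true_iff]
    by_cases h1 : (j : ℕ) < n - 1
    · exact Or.inl (Or.inl h1)
    by_cases h2 : 2 * n ≤ (j : ℕ) + (n - 1)
    · exact Or.inl (Or.inr h2)
    right
    by_cases h3 : (j : ℕ) = n - 1
    · exact Or.inl (Fin.ext h3)
    · refine Or.inr (Fin.ext ?_)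
      show (j : ℕ) = n
      omega
  have hd : Disjoint (Out n) {ce n hn, de n hn} := by
    rw [disjoint_left]
    intro j hj hj2
    simp only [Out, mem_filter, mem_univ, true_and] at hj
    simp only [mem_insert, mem_singleton] at hj2
    rcases hj2 with rfl | rfl
    · simp only [ce] at hj
      omega
    · simp only [de] at hj
      omega
  have hne : ce n hn ≠ de n hn := by
    intro h
    have := congrArg Fin.val h
    simp only [ce, de] at this
    omega
  rw [h, sum_union hd, sum_pair hne]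

/-- Some outer row has different entries in the two central columns. -/
theorem exists_split (hn : 3 ≤ n)
    (hpm : ∀ i j, (i ∈ Out n ∨ j ∈ Out n) → M i j = 1 ∨ M i j = -1)
    (hg : ∀ i k, ∑ j, (M i j : R) * ((M k j)⁻¹ : Rˣ) = if i = k then ((2 * n : ℕ) : R) else 0) :
    ∃ k ∈ Out n, z (M k (ce n hn)) * z (M k (de n hn)) = -1 := by
  by_contra hcon
  push Not at hcon
  have hz : ∀ u : Rˣ, z u = 1 ∨ z u = -1 := by
    intro u
    unfold z
    split_ifs <;> simp
  have heq : ∀ k ∈ Out n, z (M k (de n hn)) = z (M k (ce n hn)) := by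
    intro k hk
    have h := hcon k hk
    rcases hz (M k (ce n hn)) with h1 | h1 <;> rcases hz (M k (de n hn)) with h2 | h2 <;>
      rw [h1, h2] at h ⊢ <;> norm_num at h
  -- integer Gram matrix
  have hG : ∀ k ∈ Out n, ∀ l ∈ Out n, ∑ j, z (M k j) * z (M l j) =
      if k = l then ((2 * n : ℕ) : ℤ) else 0 := by
    intro k hk l hl
    have h := hg k l
    have h2 : ∀ j, (M k j : R) * ((M l j)⁻¹ : Rˣ) = ((z (M k j) * z (M l j) : ℤ) : R) := by
      intro j
      rw [inv_pm (hpm l j (Or.inl hl)), Int.cast_mul, z_spec (hpm k j (Or.inl hk)),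
        z_spec (hpm l j (Or.inl hl))]
    rw [sum_congr rfl (fun j _ => h2 j), ← Int.cast_sum] at h
    by_cases hkl : k = l
    · rw [if_pos hkl] at h ⊢
      have h3 : ((∑ j, z (M k j) * z (M l j) - ((2 * n : ℕ) : ℤ) : ℤ) : R) = 0 := by
        rw [Int.cast_sub, h, Int.cast_natCast, sub_self]
      exact sub_eq_zero.1 (int_inj h3)
    · rw [if_neg hkl] at h ⊢
      exact int_inj h
  have hO : ∀ k ∈ Out n, ∀ l ∈ Out n, ∑ j ∈ Out n, z (M k j) * z (M l j) =
      (if k = l then ((2 * n : ℕ) : ℤ) else 0) - 2 * (z (M k (ce n hn)) * z (M l (ce n hn))) := by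
    intro k hk l hl
    have h := hG k hk l hl
    rw [sum_split hn, heq k hk, heq l hl] at h
    rw [← h]
    ring
  -- the square of a vector
  have hsq : ∑ j ∈ Out n, (∑ k ∈ Out n, z (M k (ce n hn)) * z (M k j)) ^ 2 =
      ∑ k ∈ Out n, ∑ l ∈ Out n, z (M k (ce n hn)) * z (M l (ce n hn)) *
        ∑ j ∈ Out n, z (M k j) * z (M l j) := by
    have h1 : ∀ j, (∑ k ∈ Out n, z (M k (ce n hn)) * z (M k j)) ^ 2 =
        ∑ k ∈ Out n, ∑ l ∈ Out n, z (M k (ce n hn)) * z (M l (ce n hn)) *
          (z (M k j) * z (M l j)) := by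
      intro j
      rw [sq, sum_mul_sum]
      refine sum_congr rfl (fun k _ => sum_congr rfl (fun l _ => ?_))
      ring
    rw [sum_congr rfl (fun j _ => h1 j), sum_comm]
    refine sum_congr rfl (fun k _ => ?_)
    rw [sum_comm]
    refine sum_congr rfl (fun l _ => ?_)
    rw [mul_sum]
  have hval : ∑ k ∈ Out n, ∑ l ∈ Out n, z (M k (ce n hn)) * z (M l (ce n hn)) *
        ∑ j ∈ Out n, z (M k j) * z (M l j) =
      ∑ k ∈ Out n, ∑ l ∈ Out n, ((if k = l then ((2 * n : ℕ) : ℤ) else 0) - 2) := by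
    refine sum_congr rfl (fun k hk => sum_congr rfl (fun l hl => ?_))
    rw [hO k hk l hl]
    have e1 := z_sq (M k (ce n hn))
    have e2 := z_sq (M l (ce n hn))
    by_cases hkl : k = l
    · subst hkl
      rw [if_pos rfl]
      linear_combination (((2 * n : ℕ) : ℤ) - 2 * (z (M k (ce n hn)) * z (M k (ce n hn))) - 2) * e1
    · rw [if_neg hkl]
      linear_combination (-2) * (z (M l (ce n hn)) * z (M l (ce n hn))) * e1 - 2 * e2
  have hfin : ∑ k ∈ Out n, ∑ l ∈ Out n, ((if k = l then ((2 * n : ℕ) : ℤ) else 0) - 2) =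
      (2 * (n - 1) : ℤ) * ((2 * n : ℤ) - 2 * (2 * (n - 1))) := by
    have h1 : ∀ k ∈ Out n, ∑ l ∈ Out n, ((if k = l then ((2 * n : ℕ) : ℤ) else 0) - 2) =
        (2 * n : ℤ) - 2 * (2 * (n - 1)) := by
      intro k hk
      rw [sum_sub_distrib, sum_ite_eq, if_pos hk, sum_const, card_Out hn]
      push_cast [Nat.cast_sub (by omega : 1 ≤ n)]
      rw [nsmul_eq_mul]
      push_cast [Nat.cast_sub (by omega : 1 ≤ n)]
      ring
    rw [sum_congr rfl h1, sum_const, card_Out hn, nsmul_eq_mul]
    push_cast [Nat.cast_sub (by omega : 1 ≤ n)]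
    ring
  have hpos : 0 ≤ ∑ j ∈ Out n, (∑ k ∈ Out n, z (M k (ce n hn)) * z (M k j)) ^ 2 :=
    sum_nonneg (fun j _ => sq_nonneg _)
  rw [hsq, hval, hfin] at hpos
  have hn' : (3 : ℤ) ≤ n := by exact_mod_cast hn
  nlinarith

/-- All entries are `1` or `-1`. -/
theorem all_pm (hn : 3 ≤ n) (h0 : ∀ i j : Fin (2 * n), ((i : ℕ) = 0 ∨ (j : ℕ) = 0) → M i j = 1)
    (hpm : ∀ i j, (i ∈ Out n ∨ j ∈ Out n) → M i j = 1 ∨ M i j = -1)
    (hg : ∀ i k, ∑ j, (M i j : R) * ((M k j)⁻¹ : Rˣ) = if i = k then ((2 * n : ℕ) : R) else 0)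
    (i j : Fin (2 * n)) : M i j = 1 ∨ M i j = -1 := by
  by_cases hi : i ∈ Out n
  · exact hpm i j (Or.inl hi)
  by_cases hj : j ∈ Out n
  · exact hpm i j (Or.inr hj)
  set c := ce n hn with hc
  set d := de n hn with hd
  -- the sum over the outer columns
  have hS : ∀ k ∈ Out n, ∃ S : ℤ,
      (M i c : R) * ((z (M k c) : ℤ) : R) + (M i d : R) * ((z (M k d) : ℤ) : R) = (S : R) ∧
      (((M i c)⁻¹ : Rˣ) : R) * ((z (M k c) : ℤ) : R) +
        (((M i d)⁻¹ : Rˣ) : R) * ((z (M k d) : ℤ) : R) = (S : R) := by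
    intro k hk
    have hik : i ≠ k := fun e => hi (e ▸ hk)
    refine ⟨- ∑ j ∈ Out n, z (M i j) * z (M k j), ?_, ?_⟩
    · have h := hg i k
      rw [if_neg hik, sum_split hn] at h
      have h1 : ∑ j ∈ Out n, (M i j : R) * ((M k j)⁻¹ : Rˣ) =
          ((∑ j ∈ Out n, z (M i j) * z (M k j) : ℤ) : R) := by
        rw [Int.cast_sum]
        refine sum_congr rfl (fun j hj => ?_)
        rw [inv_pm (hpm k j (Or.inl hk)), Int.cast_mul, z_spec (hpm k j (Or.inl hk)),
          z_spec (hpm i j (Or.inr hj))]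
      rw [h1, inv_pm (hpm k c (Or.inl hk)), inv_pm (hpm k d (Or.inl hk)),
        ← z_spec (hpm k c (Or.inl hk)), ← z_spec (hpm k d (Or.inl hk))] at h
      rw [Int.cast_neg]
      exact (neg_eq_of_add_eq_zero_right h).symm
    · have h := hg k i
      rw [if_neg hik.symm, sum_split hn] at h
      have h1 : ∑ j ∈ Out n, (M k j : R) * ((M i j)⁻¹ : Rˣ) =
          ((∑ j ∈ Out n, z (M i j) * z (M k j) : ℤ) : R) := by
        rw [Int.cast_sum]
        refine sum_congr rfl (fun j hj => ?_)
        rw [inv_pm (hpm i j (Or.inr hj)), mul_comm (z (M i j)), Int.cast_mul,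
          z_spec (hpm k j (Or.inl hk)), z_spec (hpm i j (Or.inr hj))]
      rw [h1, ← z_spec (hpm k c (Or.inl hk)), ← z_spec (hpm k d (Or.inl hk))] at h
      rw [Int.cast_neg]
      rw [← Int.cast_comm (z (M k c)) (((M i c)⁻¹ : Rˣ) : R),
        ← Int.cast_comm (z (M k d)) (((M i d)⁻¹ : Rˣ) : R)]
      exact (neg_eq_of_add_eq_zero_right h).symm
  have h0mem : (⟨0, by omega⟩ : Fin (2 * n)) ∈ Out n := by
    simp only [Out, mem_filter, mem_univ, true_and]
    left
    omega
  obtain ⟨a, ha1, ha2⟩ := hS _ h0mem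
  rw [h0 ⟨0, by omega⟩ c (Or.inl rfl), h0 ⟨0, by omega⟩ d (Or.inl rfl), z_one, Int.cast_one,
    mul_one, mul_one] at ha1
  rw [h0 ⟨0, by omega⟩ c (Or.inl rfl), h0 ⟨0, by omega⟩ d (Or.inl rfl), z_one, Int.cast_one,
    mul_one, mul_one] at ha2
  obtain ⟨k, hk, hkz⟩ := exists_split hn hpm hg
  obtain ⟨b, hb1, hb2⟩ := hS k hk
  have hz : ∀ u : Rˣ, z u = 1 ∨ z u = -1 := by
    intro u
    unfold z
    split_ifs <;> simp
  -- normalise the sign of `b`
  obtain ⟨b', hb1', hb2'⟩ : ∃ b' : ℤ, (M i c : R) - (M i d : R) = (b' : R) ∧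
      (((M i c)⁻¹ : Rˣ) : R) - (((M i d)⁻¹ : Rˣ) : R) = (b' : R) := by
    rcases hz (M k c) with h1 | h1 <;> rcases hz (M k d) with h2 | h2 <;>
      rw [← hc, ← hd, h1, h2] at hkz <;> norm_num at hkz
    · rw [h1, h2] at hb1 hb2
      refine ⟨b, ?_, ?_⟩
      · rw [← hb1]; push_cast; noncomm_ring
      · rw [← hb2]; push_cast; noncomm_ring
    · rw [h1, h2] at hb1 hb2
      refine ⟨-b, ?_, ?_⟩
      · rw [Int.cast_neg, ← hb1]; push_cast; noncomm_ring
      · rw [Int.cast_neg, ← hb2]; push_cast; noncomm_ring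
  have key : ∀ (u : Rˣ) (m : ℤ), 2 * (u : R) = (m : R) → 2 * ((u⁻¹ : Rˣ) : R) = (m : R) →
      u = 1 ∨ u = -1 := by
    intro u m h1 h2
    have h3 : ((m * m - 4 : ℤ) : R) = 0 := by
      have h4 : (2 * (u : R)) * (2 * ((u⁻¹ : Rˣ) : R)) = 4 := by
        have h5 : (u : R) * ((u⁻¹ : Rˣ) : R) = 1 := u.mul_inv
        calc (2 * (u : R)) * (2 * ((u⁻¹ : Rˣ) : R)) = 4 * ((u : R) * ((u⁻¹ : Rˣ) : R)) := by
              noncomm_ring
          _ = 4 := by rw [h5, mul_one]
      rw [h1, h2] at h4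
      push_cast
      rw [h4, sub_self]
    have h4 := int_inj h3
    have h5 : (m - 2) * (m + 2) = 0 := by linear_combination h4
    rcases mul_eq_zero.1 h5 with h6 | h6
    · left
      have hm : m = 2 := by omega
      rw [hm] at h1
      have : (u : R) - 1 = 0 := by
        apply two_inj
        rw [mul_sub, h1, mul_one, Int.cast_ofNat, sub_self]
      exact Units.ext (by rw [Units.val_one]; exact sub_eq_zero.1 this)
    · right
      have hm : m = -2 := by omega
      rw [hm] at h1
      have : (u : R) + 1 = 0 := by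
        apply two_inj
        rw [mul_add, h1, mul_one, Int.cast_neg, Int.cast_ofNat, neg_add_cancel]
      exact Units.ext (by rw [Units.val_neg, Units.val_one]; exact eq_neg_of_add_eq_zero_left this)
  have hcd : j = c ∨ j = d := by
    simp only [Out, mem_filter, mem_univ, true_and] at hj
    by_cases h3 : (j : ℕ) = n - 1
    · exact Or.inl (Fin.ext h3)
    · right
      refine Fin.ext ?_
      show (j : ℕ) = n
      omega
  rcases hcd with rfl | rfl
  · refine key _ (a + b') ?_ ?_
    · push_cast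
      rw [← ha1, ← hb1']
      noncomm_ring
    · push_cast
      rw [← ha2, ← hb2']
      noncomm_ring
  · refine key _ (a - b') ?_ ?_
    · push_cast
      rw [← ha1, ← hb1']
      noncomm_ring
    · push_cast
      rw [← ha2, ← hb2']
      noncomm_ring

omit [Nontrivial R] in
/-- No jacket matrix of order `2 n`, `n ≥ 3`, has width `n - 1`. -/
theorem no_width (hn : 3 ≤ n) (N : Subgroup Rˣ) (K : Fin (2 * n) → Fin (2 * n) → Rˣ)
    (hK : IsJacket N (2 * n) K) : ¬ JacketWidth (2 * n) K (n - 1) := by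
  rintro ⟨⟨-, -, K', ⟨σ, τ, hστ⟩, hnorm, hpm⟩, hmax⟩
  obtain ⟨⟨-, hchar, -, hg, -⟩, -, -⟩ := hK
  have hnt : Nontrivial R := by
    by_contra h
    rw [not_nontrivial_iff_subsingleton] at h
    apply hchar
    have h1 : ringChar R ∣ 1 := (ringChar.spec R 1).1 (Subsingleton.elim _ _)
    exact h1.trans (one_dvd _)
  have hpm' : ∀ i j, (i ∈ Out n ∨ j ∈ Out n) → K' i j = 1 ∨ K' i j = -1 := by
    intro i j h
    apply hpm
    rcases h with h | h
    · simp only [Out, mem_filter, mem_univ, true_and] at h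
      omega
    · simp only [Out, mem_filter, mem_univ, true_and] at h
      omega
  have hg' : ∀ i k, ∑ j, (K' i j : R) * ((K' k j)⁻¹ : Rˣ) =
      if i = k then ((2 * n : ℕ) : R) else 0 := by
    intro i k
    have h := hg (σ i) (σ k)
    rw [← Equiv.sum_comp τ] at h
    rw [sum_congr rfl (fun j _ => by rw [hστ i j, hστ k j]), h]
    simp [σ.injective.eq_iff]
  have hall := all_pm hn hnorm hpm' hg'
  have : n ≤ n - 1 := hmax ⟨by omega, by omega, K', ⟨σ, τ, hστ⟩, hnorm, fun i j _ => hall i j⟩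
  omega

end Pool.Agent.Results.MP_522cd8_co.TorsionFreeRings

namespace Pool.Agent.Results.MP_522cd8_co.TorsionFreeRings

open Finset Pool.Agent.R110.Jacket

/-- **Rings with torsion free additive group.**  Over such a ring no jacket matrix of order `2 n` with
`n ≥ 3` has jacket width `n - 1`, and property (F) fails for every group `N` of units. -/
theorem result (R : Type) [Ring R] [IsAddTorsionFree R] (N : Subgroup Rˣ) :
    (∀ n : ℕ, 3 ≤ n → ∀ K : Fin (2 * n) → Fin (2 * n) → Rˣ, IsJacket N (2 * n) K →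
      ¬ JacketWidth (2 * n) K (n - 1)) ∧ ¬ PropertyF R N := by
  have h1 : ∀ n : ℕ, 3 ≤ n → ∀ K : Fin (2 * n) → Fin (2 * n) → Rˣ, IsJacket N (2 * n) K →
      ¬ JacketWidth (2 * n) K (n - 1) := fun n hn K hK => no_width hn N K hK
  refine ⟨h1, fun hF => ?_⟩
  obtain ⟨n, hn, hn3⟩ := hF.exists_gt 2
  have hadm : Admissible n (n - 1) := by
    refine ⟨by omega, ?_⟩
    rcases Nat.even_or_odd n with h | h
    · exact Or.inl ⟨h, by omega⟩
    · exact Or.inr ⟨h, le_rfl⟩
  obtain ⟨K, hK, -, hw⟩ := hn (n - 1) hadm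
  exact h1 n hn3 K hK hw

end Pool.Agent.Results.MP_522cd8_co.TorsionFreeRings
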