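import Mathlib
import Pool.Agent.R110.JacketDefs

/-!
# Primary jacket matrices of every jacket width over the field with five elements

For every odd `n` with `2 n = 4` modulo `5` and every `w` with `1 ≤ w ≤ n - 1` there is a primary
jacket matrix of order `2 n` over `ZMod 5` of jacket width exactly `w`.  Pair the index `i` with
`rev i = 2 n - 1 - i` and let `L` be the matrix with `L i i = x_i`, `L i (rev i) = - x_i` and all other
entries `1`, where `x_i = x_(rev i)` is `-1` for `w` of the pairs and `2` for the other ones.  As `4 = 2 n`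
modulo `5`, this is a generalised Butson Hadamard matrix; `K` is its normalisation.
-/

namespace Pool.Agent.Results.MP_522cd8_co.WidthsModFive

open Finset Pool.Agent.R110.Jacket


/-! ### The matrix -/

/-- the unit `2` of `ZMod 5` -/
def two : (ZMod 5)ˣ := ⟨2, 3, by decide, by decide⟩

/-- the numbers `x_i` -/
def x (v w : ℕ) (i : Fin v) : (ZMod 5)ˣ := if (i : ℕ) < w ∨ v ≤ (i : ℕ) + w then -1 else two

/-- the matrix before normalising -/
def L (v w : ℕ) (i j : Fin v) : (ZMod 5)ˣ :=
  if j = i then x v w i else if j = i.rev then - x v w i else 1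

/-- row signs -/
def s (v : ℕ) (i : Fin v) : (ZMod 5)ˣ := if (i : ℕ) = 0 then 1 else -1

/-- the normalised matrix -/
def K (v w : ℕ) (i j : Fin v) : (ZMod 5)ˣ := s v i * (- s v j) * L v w i j

variable {v w : ℕ}

theorem s_sq (i : Fin v) : s v i * s v i = 1 := by
  unfold s; split_ifs <;> decide

theorem s_inv (i : Fin v) : (s v i)⁻¹ = s v i := by
  unfold s; split_ifs <;> decide

theorem x_rev (i : Fin v) : x v w i.rev = x v w i := by
  unfold x
  have hi := i.2
  have h : ((i.rev : ℕ) < w ∨ v ≤ (i.rev : ℕ) + w) ↔ ((i : ℕ) < w ∨ v ≤ (i : ℕ) + w) := by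
    rw [Fin.val_rev]
    omega
  simp only [h]

theorem rev_ne (hv : Even v) (i : Fin v) : i.rev ≠ i := by
  intro h
  have := congrArg Fin.val h
  rw [Fin.val_rev] at this
  obtain ⟨m, hm⟩ := hv
  have := i.2
  omega

theorem L_symm (i j : Fin v) : L v w i j = L v w j i := by
  unfold L
  by_cases h : j = i
  · subst h; rfl
  · have h' : ¬ i = j := fun e => h e.symm
    rw [if_neg h, if_neg h']
    by_cases h2 : j = i.rev
    · have h3 : i = j.rev := by rw [h2, Fin.rev_rev]
      rw [if_pos h2, if_pos h3, h2, x_rev]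
    · have h3 : ¬ i = j.rev := fun e => h2 (by rw [e, Fin.rev_rev])
      rw [if_neg h2, if_neg h3]

theorem x_cases (i : Fin v) : x v w i = -1 ∨ x v w i = two := by
  unfold x; split_ifs <;> simp

/-- the quotient of two entries of a column of `L`, as a sum of corrections -/
theorem quot_ne (hv : Even v) {i k : Fin v} (hik : k ≠ i) (hr : k ≠ i.rev) (j : Fin v) :
    ((L v w i j : ZMod 5) * ((L v w k j)⁻¹ : (ZMod 5)ˣ)) =
      1 + (if j = i then ((x v w i : (ZMod 5)ˣ) : ZMod 5) - 1 else 0)
        + (if j = i.rev then -((x v w i : (ZMod 5)ˣ) : ZMod 5) - 1 else 0)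
        + (if j = k then (((x v w k)⁻¹ : (ZMod 5)ˣ) : ZMod 5) - 1 else 0)
        + (if j = k.rev then -(((x v w k)⁻¹ : (ZMod 5)ˣ) : ZMod 5) - 1 else 0) := by
  have h1 : i.rev ≠ i := rev_ne hv i
  have h2 : k.rev ≠ k := rev_ne hv k
  have h3 : k.rev ≠ i := fun e => hr (by rw [← e, Fin.rev_rev])
  have h4 : k.rev ≠ i.rev := fun e => hik (by simpa using congrArg Fin.rev e)
  unfold L
  by_cases a : j = i
  · subst a
    simp [h1.symm, hik.symm, h3.symm]
  by_cases b : j = i.rev
  · subst b
    simp [h1, hr.symm, h4.symm]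
  by_cases c : j = k
  · subst c
    simp [hik, hr, h2.symm]
  by_cases d : j = k.rev
  · subst d
    simp [h3, h4, h2]
  simp [a, b, c, d]

theorem quot_rev (hv : Even v) (i j : Fin v) :
    ((L v w i j : ZMod 5) * ((L v w i.rev j)⁻¹ : (ZMod 5)ˣ)) =
      1 + (if j = i then -2 else 0) + (if j = i.rev then -2 else 0) := by
  have h1 : i.rev ≠ i := rev_ne hv i
  unfold L
  rw [x_rev, Fin.rev_rev]
  by_cases a : j = i
  · subst a
    simp only [h1.symm, if_true, if_false]
    rcases x_cases (w := w) j with h | h <;> rw [h] <;> decide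
  by_cases b : j = i.rev
  · subst b
    simp only [h1, if_true, if_false]
    rcases x_cases (w := w) i with h | h <;> rw [h] <;> decide
  simp [a, b]

theorem L_sum (hv : Even v) (h5 : (v : ZMod 5) = 4) (i k : Fin v) :
    ∑ j, ((L v w i j : ZMod 5) * ((L v w k j)⁻¹ : (ZMod 5)ˣ)) = if i = k then (v : ZMod 5) else 0 := by
  by_cases hik : i = k
  · subst hik
    simp
  rw [if_neg hik]
  by_cases hr : k = i.rev
  · subst hr
    rw [sum_congr rfl (fun j _ => quot_rev hv i j)]
    simp only [sum_add_distrib, sum_ite_eq', mem_univ, if_true, sum_const, card_univ,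
      Fintype.card_fin, nsmul_eq_mul, mul_one, h5]
    decide
  · rw [sum_congr rfl (fun j _ => quot_ne hv (Ne.symm hik) hr j)]
    simp only [sum_add_distrib, sum_ite_eq', mem_univ, if_true, sum_const, card_univ,
      Fintype.card_fin, nsmul_eq_mul, mul_one, h5]
    ring

theorem K_quot (i k j : Fin v) : ((K v w i j : ZMod 5) * ((K v w k j)⁻¹ : (ZMod 5)ˣ)) =
    ((s v i * s v k : (ZMod 5)ˣ) : ZMod 5) *
      ((L v w i j : ZMod 5) * ((L v w k j)⁻¹ : (ZMod 5)ˣ)) := by
  rw [← Units.val_mul, ← Units.val_mul, ← Units.val_mul]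
  congr 1
  unfold K
  rw [mul_inv, mul_inv, s_inv]
  have h : (-s v j) * (-s v j)⁻¹ = 1 := mul_inv_cancel _
  calc s v i * -s v j * L v w i j * (s v k * (-s v j)⁻¹ * (L v w k j)⁻¹)
      = ((-s v j) * (-s v j)⁻¹) * (s v i * s v k * (L v w i j * (L v w k j)⁻¹)) := by
        simp only [mul_comm, mul_left_comm, mul_assoc]
    _ = _ := by rw [h, one_mul]

theorem K_row_sum (hv : Even v) (h5 : (v : ZMod 5) = 4) (i k : Fin v) :
    ∑ j, ((K v w i j : ZMod 5) * ((K v w k j)⁻¹ : (ZMod 5)ˣ)) = if i = k then (v : ZMod 5) else 0 := by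
  rw [sum_congr rfl (fun j _ => K_quot i k j), ← mul_sum, L_sum hv h5]
  by_cases hik : i = k
  · subst hik
    simp [s_sq]
  · simp [hik]

theorem K_transpose (i j : Fin v) : K v w i j = K v w j i := by
  unfold K
  rw [L_symm i j]
  congr 1
  rw [mul_neg, mul_neg, mul_comm]

theorem K_col_sum (hv : Even v) (h5 : (v : ZMod 5) = 4) (i k : Fin v) :
    ∑ j, (((K v w j i)⁻¹ : (ZMod 5)ˣ) : ZMod 5) * (K v w j k : ZMod 5) =
      if i = k then (v : ZMod 5) else 0 := by
  have h := K_row_sum (w := w) hv h5 k i
  rw [sum_congr rfl (fun j _ => by rw [mul_comm, K_transpose j k, K_transpose j i])]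
  rw [h]
  simp [eq_comm]

theorem K_norm (hw : 1 ≤ w) : Normalised v (K v w) := by
  have key : ∀ i j : Fin v, (i : ℕ) = 0 → K v w i j = 1 := by
    intro i j hi
    have hx : x v w i = -1 := by
      unfold x
      rw [if_pos (Or.inl (by omega))]
    unfold K L
    have hs : s v i = 1 := by unfold s; rw [if_pos hi]
    rw [hs, hx]
    by_cases a : j = i
    · subst a
      rw [if_pos rfl, hs]
      decide
    · have hj : s v j = -1 := by
        unfold s
        rw [if_neg]
        intro h
        exact a (Fin.ext (by omega))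
      rw [if_neg a, hj]
      split_ifs <;> decide
  rintro i j (h | h)
  · exact key i j h
  · rw [K_transpose]
    exact key j i h

theorem pm_of_lt {i : Fin v} (h : (i : ℕ) < w ∨ v ≤ (i : ℕ) + w) (j : Fin v) :
    K v w i j = 1 ∨ K v w i j = -1 := by
  have hx : x v w i = -1 := by
    unfold x
    rw [if_pos h]
  unfold K L s
  rw [hx]
  split_ifs <;> decide

theorem not_pm {i : Fin v} (h : ¬ ((i : ℕ) < w ∨ v ≤ (i : ℕ) + w)) :
    ¬ (K v w i i = 1 ∨ K v w i i = -1) := by
  have hx : x v w i = two := by
    unfold x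
    rw [if_neg h]
  unfold K L s
  rw [hx, if_pos rfl]
  split_ifs <;> decide

theorem K_rearr (hw : 1 ≤ w) {m : ℕ} (hm : m ≤ w) : Rearr v m (K v w) (K v w) := by
  refine ⟨⟨1, 1, fun i j => rfl⟩, K_norm hw, ?_⟩
  rintro i j (h | h | h | h)
  · exact pm_of_lt (Or.inl (by omega)) j
  · exact pm_of_lt (Or.inr (by omega)) j
  · rw [K_transpose]
    exact pm_of_lt (Or.inl (by omega)) i
  · rw [K_transpose]
    exact pm_of_lt (Or.inr (by omega)) i

theorem K_width (hw : 1 ≤ w) (hwv : 2 * w ≤ v) :
    JacketWidth v (K v w) w := by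
  refine ⟨⟨hw, hwv, K v w, K_rearr hw le_rfl⟩, ?_⟩
  rintro m ⟨hm1, hm2, K', ⟨σ, τ, hστ⟩, -, hpm⟩
  have h1 : (univ.filter (fun i : Fin v => (i : ℕ) < m ∨ v ≤ (i : ℕ) + m)).image σ ⊆
      univ.filter (fun i : Fin v => (i : ℕ) < w ∨ v ≤ (i : ℕ) + w) := by
    intro a ha
    rw [mem_image] at ha
    obtain ⟨i, hi, rfl⟩ := ha
    rw [mem_filter] at hi ⊢
    refine ⟨mem_univ _, ?_⟩
    by_contra hcon
    apply not_pm hcon
    have := hpm i (τ.symm (σ i)) (by
      rcases hi.2 with h | h
      · exact Or.inl h
      · exact Or.inr (Or.inl h))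
    rwa [hστ, Equiv.apply_symm_apply] at this
  have h2 := card_le_card h1
  rw [card_image_of_injective _ σ.injective, card_outer m hm2, card_outer w hwv] at h2
  omega

/-- For two different rows some quotient of their entries occurs once or twice. -/
theorem rare (hv : Even v) {i k : Fin v} (hik : i ≠ k) :
    ∃ z : (ZMod 5)ˣ, 1 ≤ (univ.filter (fun j : Fin v => K v w i j * (K v w k j)⁻¹ = z)).card ∧
      (univ.filter (fun j : Fin v => K v w i j * (K v w k j)⁻¹ = z)).card ≤ 2 := by
  have hconv : ∀ (j : Fin v) (u : (ZMod 5)ˣ), (K v w i j * (K v w k j)⁻¹ = s v i * s v k * u) ↔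
      ((L v w i j : ZMod 5) * ((L v w k j)⁻¹ : (ZMod 5)ˣ)) = u := by
    intro j u
    have e : ((s v i * s v k * u : (ZMod 5)ˣ) : ZMod 5) =
        ((s v i * s v k : (ZMod 5)ˣ) : ZMod 5) * u := Units.val_mul _ _
    rw [← Units.val_inj, Units.val_mul, K_quot, e]
    constructor
    · intro h
      exact (Units.mul_right_inj _).1 h
    · intro h
      rw [h]
  by_cases hr : k = i.rev
  · subst hr
    refine ⟨s v i * s v i.rev * (-1), ?_⟩
    have hset : (univ.filter (fun j : Fin v => K v w i j * (K v w i.rev j)⁻¹ =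
        s v i * s v i.rev * (-1))) = {i, i.rev} := by
      ext j
      rw [mem_filter, hconv, quot_rev hv]
      have h1 : i.rev ≠ i := rev_ne hv i
      simp only [mem_univ, true_and, mem_insert, mem_singleton]
      by_cases a : j = i
      · subst a
        simp only [h1.symm, if_true, if_false, true_or, iff_true]
        decide
      by_cases b : j = i.rev
      · subst b
        simp only [h1, if_true, if_false, or_true, iff_true]
        decide
      simp only [a, b, if_false, or_self, iff_false]
      decide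
    rw [hset, card_pair hik]
    omega
  · refine ⟨s v i * s v k * x v w i, ?_, ?_⟩
    · rw [Nat.one_le_iff_ne_zero, ← Nat.pos_iff_ne_zero, card_pos]
      refine ⟨i, ?_⟩
      rw [mem_filter, hconv, quot_ne hv (Ne.symm hik) hr]
      have h1 : i.rev ≠ i := rev_ne hv i
      have h3 : k.rev ≠ i := fun e => hr (by rw [← e, Fin.rev_rev])
      simp [h1.symm, hik, h3.symm]
    · have h1 : i.rev ≠ i := rev_ne hv i
      have h2 : k.rev ≠ k := rev_ne hv k
      have h3 : k.rev ≠ i := fun e => hr (by rw [← e, Fin.rev_rev])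
      have h4 : k.rev ≠ i.rev := fun e => hik (by simpa using (congrArg Fin.rev e).symm)
      have hx1 : ((x v w i : (ZMod 5)ˣ) : ZMod 5) ≠ 1 := by
        rcases x_cases (w := w) i with h | h <;> rw [h] <;> decide
      have hx2 : -((x v w i : (ZMod 5)ˣ) : ZMod 5) ≠ ((x v w i : (ZMod 5)ˣ) : ZMod 5) := by
        rcases x_cases (w := w) i with h | h <;> rw [h] <;> decide
      -- the level set lies in `{i, k}` or in `{i, k.rev}`
      have hsub : (univ.filter (fun j : Fin v => K v w i j * (K v w k j)⁻¹ =
          s v i * s v k * x v w i)) ⊆ {i, k} ∨ (univ.filter (fun j : Fin v =>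
          K v w i j * (K v w k j)⁻¹ = s v i * s v k * x v w i)) ⊆ {i, k.rev} := by
        by_cases hk : (((x v w k)⁻¹ : (ZMod 5)ˣ) : ZMod 5) = ((x v w i : (ZMod 5)ˣ) : ZMod 5)
        · left
          intro j hj
          rw [mem_filter, hconv, quot_ne hv (Ne.symm hik) hr] at hj
          rw [mem_insert, mem_singleton]
          by_contra hcon
          push Not at hcon
          have hj2 := hj.2
          rw [if_neg hcon.1, if_neg hcon.2] at hj2
          by_cases b : j = i.rev
          · subst b
            simp only [if_true, if_neg h4.symm, add_zero] at hj2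
            exact hx2 (by linear_combination hj2)
          · by_cases d : j = k.rev
            · subst d
              simp only [if_true, if_neg b, add_zero] at hj2
              exact hx2 (by linear_combination hj2 + hk)
            · simp only [if_neg b, if_neg d, add_zero] at hj2
              exact hx1 hj2.symm
        · right
          intro j hj
          rw [mem_filter, hconv, quot_ne hv (Ne.symm hik) hr] at hj
          rw [mem_insert, mem_singleton]
          by_contra hcon
          push Not at hcon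
          have hj2 := hj.2
          rw [if_neg hcon.1, if_neg hcon.2] at hj2
          by_cases b : j = i.rev
          · subst b
            simp only [if_true, if_neg (Ne.symm hr), add_zero] at hj2
            exact hx2 (by linear_combination hj2)
          · by_cases c : j = k
            · subst c
              simp only [if_true, if_neg b, add_zero] at hj2
              exact hk (by linear_combination hj2)
            · simp only [if_neg b, if_neg c, add_zero] at hj2
              exact hx1 hj2.symm
      rcases hsub with h | h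
      · exact (card_le_card h).trans card_le_two
      · exact (card_le_card h).trans card_le_two

/-- An odd number `d ≥ 2` which divides the cardinality of every level set of the quotient of two
different rows does not exist. -/
theorem no_divisor (hv : Even v) {d : ℕ} (hd2 : 2 ≤ d) (hd : Odd d) {i k : Fin v} (hik : i ≠ k)
    (h : ∀ z : (ZMod 5)ˣ, d ∣ (univ.filter (fun j : Fin v => K v w i j * (K v w k j)⁻¹ = z)).card) :
    False := by
  obtain ⟨z, h1, h2⟩ := rare (w := w) hv hik
  obtain ⟨c, hc⟩ := h z
  rw [hc] at h1 h2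
  have hd3 : 3 ≤ d := by
    rcases hd with ⟨m, hm⟩
    omega
  rcases Nat.eq_zero_or_pos c with h0 | h0
  · subst h0
    omega
  · have : d * 1 ≤ d * c := Nat.mul_le_mul_left d h0
    omega

theorem card_level_fst {a b : ℕ} (f : Fin a × Fin b ≃ Fin v) (g : Fin v → (ZMod 5)ˣ)
    (u : Fin a → (ZMod 5)ˣ) (hg : ∀ q, g (f q) = u q.1) (z : (ZMod 5)ˣ) :
    b ∣ (univ.filter (fun j : Fin v => g j = z)).card := by
  have h : (univ.filter (fun j : Fin v => g j = z)) =
      ((univ.filter (fun c : Fin a => u c = z)) ×ˢ (univ : Finset (Fin b))).map f.toEmbedding := by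
    ext j
    simp only [mem_filter, mem_univ, true_and, mem_map, mem_product, and_true,
      Equiv.coe_toEmbedding]
    constructor
    · intro hj
      refine ⟨f.symm j, ?_, f.apply_symm_apply j⟩
      rw [← hg, f.apply_symm_apply, hj]
    · rintro ⟨q, hq, rfl⟩
      rw [hg, hq]
  rw [h, card_map, card_product, card_univ, Fintype.card_fin]
  exact Dvd.intro_left _ rfl

theorem card_level_snd {a b : ℕ} (f : Fin a × Fin b ≃ Fin v) (g : Fin v → (ZMod 5)ˣ)
    (u : Fin b → (ZMod 5)ˣ) (hg : ∀ q, g (f q) = u q.2) (z : (ZMod 5)ˣ) :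
    a ∣ (univ.filter (fun j : Fin v => g j = z)).card :=
  card_level_fst ((Equiv.prodComm _ _).trans f) g u (fun q => hg (q.2, q.1)) z

/-- `K` is not permutation equivalent to a Kronecker product. -/
theorem K_primary {n : ℕ} (hn : Odd n) (hv : v = 2 * n) :
    Primary (⊤ : Subgroup (ZMod 5)ˣ) v (K v w) := by
  rintro ⟨a, b, K₁, K₂, e, f, h1, h2, h⟩
  have ha : 2 ≤ a := h1.1.1
  have hb : 2 ≤ b := h2.1.1
  have hev : Even v := ⟨n, by omega⟩
  have hab : a * b = v := by
    have := Fintype.card_congr e
    simpa using this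
  have hodd : Odd a ∨ Odd b := by
    by_contra hcon
    push Not at hcon
    rw [Nat.not_odd_iff_even, Nat.not_odd_iff_even] at hcon
    obtain ⟨⟨c, hc⟩, ⟨d, hd⟩⟩ := hcon
    obtain ⟨m, hm⟩ := hn
    subst hc hd hm
    have : (c + c) * (d + d) = 4 * (c * d) := by ring
    omega
  rcases hodd with ho | ho
  · -- rows with the same first index
    have hne : e (⟨0, by omega⟩, ⟨0, by omega⟩) ≠ e (⟨0, by omega⟩, ⟨1, by omega⟩) := by
      intro he
      have := e.injective he
      simp at this
    refine no_divisor (w := w) hev ha ho hne (fun z => ?_)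
    refine card_level_snd f _ (fun c => K₂ ⟨0, by omega⟩ c * (K₂ ⟨1, by omega⟩ c)⁻¹) (fun q => ?_) z
    simp only [h]
    rw [mul_inv, mul_mul_mul_comm, mul_inv_cancel, one_mul]
  · have hne : e (⟨0, by omega⟩, ⟨0, by omega⟩) ≠ e (⟨1, by omega⟩, ⟨0, by omega⟩) := by
      intro he
      have := e.injective he
      simp at this
    refine no_divisor (w := w) hev hb ho hne (fun z => ?_)
    refine card_level_fst f _ (fun c => K₁ ⟨0, by omega⟩ c * (K₁ ⟨1, by omega⟩ c)⁻¹) (fun q => ?_) z
    simp only [h]
    rw [mul_inv, mul_mul_mul_comm, mul_inv_cancel, mul_one]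

/-- **Property (F) holds for the ring `ZMod 5` and the group of all its units**: for infinitely many
`n` every admissible width is the jacket width of a primary jacket matrix of order `2 n`. -/
theorem result : PropertyF (ZMod 5) (⊤ : Subgroup (ZMod 5)ˣ) := by
  have hinf : Set.Infinite (Set.range (fun k : ℕ => 10 * k + 7)) :=
    Set.infinite_range_of_injective (fun a b h => by
      have h' : 10 * a + 7 = 10 * b + 7 := h
      omega)
  refine hinf.mono ?_
  rintro _ ⟨k, rfl⟩ w ⟨hw1, hw⟩
  have hodd : Odd (10 * k + 7) := ⟨5 * k + 3, by ring⟩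
  have hwn : w ≤ 10 * k + 7 - 1 := by
    rcases hw with ⟨he, -⟩ | ⟨-, h⟩
    · exact absurd hodd (Nat.not_odd_iff_even.2 he)
    · exact h
  have hev : Even (2 * (10 * k + 7)) := even_two_mul _
  have h5 : ((2 * (10 * k + 7) : ℕ) : ZMod 5) = 4 := by
    have : (2 * (10 * k + 7) : ℕ) = 5 * (4 * k + 2) + 4 := by ring
    rw [this, Nat.cast_add, Nat.cast_mul]
    have h0 : ((5 : ℕ) : ZMod 5) = 0 := by decide
    rw [h0, zero_mul, zero_add]
    rfl
  refine ⟨K (2 * (10 * k + 7)) w, ⟨⟨by omega, ?_, fun _ _ => Subgroup.mem_top _,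
    K_row_sum hev h5, K_col_sum hev h5⟩, K_norm hw1, ⟨_, K_rearr hw1 hw1⟩⟩,
    K_primary hodd rfl, K_width hw1 (by omega)⟩
  rw [ZMod.ringChar_zmod_n]
  show ¬ 5 ∣ 2 * (10 * k + 7)
  omega

end Pool.Agent.Results.MP_522cd8_co.WidthsModFive
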